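import Mathlib
import Pool.Agent.KS6_69.QRFinal

set_option autoImplicit false

/-!
# Sauer's question on quasiregular subgraphs: all pairs `(k, C)`, and how large the maximum degree
has to be

The lower bounds come from bipartite graphs with levels whose sizes decrease doubly exponentially
(the kind of construction of Pyber, Rödl and Szemerédi), blown up and repeated; the upper bound
from a greedy selection inside a class of vertices of comparable in-degree.
-/

namespace Pool.Agent.Results.MP_78fef3_co.DegreeWindow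

open Finset Filter Topology

/-- The subgraph `H` has at least one vertex and all its degrees (counted inside `H`) are
larger than `k` and smaller than `C k`. -/
def Quasiregular {V : Type} {G : SimpleGraph V} (k : ℕ) (C : ℝ) (H : G.Subgraph) : Prop :=
  H.verts.Nonempty ∧ ∀ v ∈ H.verts,
    (k : ℝ) < ((H.neighborSet v).ncard : ℝ) ∧ ((H.neighborSet v).ncard : ℝ) < C * k

/-- The subgraph `H` has at least one vertex and all its degrees (counted inside `H`) are
larger than `k` and at most `x`. -/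
def DegreesIn {V : Type} {G : SimpleGraph V} (k : ℕ) (x : ℝ) (H : G.Subgraph) : Prop :=
  H.verts.Nonempty ∧ ∀ v ∈ H.verts,
    k < (H.neighborSet v).ncard ∧ ((H.neighborSet v).ncard : ℝ) ≤ x

/-- `F` forces `(k, C)`-quasiregular subgraphs: every graph with `n ≥ 1` vertices and at least
`F n` edges has one. -/
def Forces (k : ℕ) (C F : ℝ) : Prop :=
  ∀ n : ℕ, 1 ≤ n → ∀ G : SimpleGraph (Fin n), F * n ≤ (G.edgeSet.ncard : ℝ) →
    ∃ H : G.Subgraph, Quasiregular k C H

/-- **Sauer's question.**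
(1) No constant `C` works; (2) in fact, for a pair `(k, C)` with `k ≥ 1` some number `F` forces
`(k, C)`-quasiregular subgraphs if and only if `k = 1` and `C > 2`.
(3) For all `n` and all `Δ > k ≥ 2` there is a graph with `n` vertices and at least
`(k / 120) n log (log n / log Δ)` edges without a subgraph all of whose degrees are in `(k, Δ]`.
(4) For `k ≥ 2` and all large `n` there is a graph with `n` vertices and at least
`(k / 240) n log log n` edges without a subgraph all of whose degrees are in `(k, exp √(log n)]`;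
in particular it has no `(k, C)`-quasiregular subgraph if `C k ≤ exp √(log n)`.
(5) For `k ≥ 2`, `0 < δ < 1` and all large `n`: there is a graph with `n` vertices and at least
`(k / 120) log (1 / δ) n` edges without a subgraph all of whose degrees are in `(k, n ^ δ]`, but
every graph with `n` vertices and at least `(42 k / δ) n` edges has such a subgraph.
(6) For all `k, m, R ≥ 1`, every graph with `1 ≤ n ≤ R ^ m` vertices and at least
`2 m (6 k + 1) n` edges has a subgraph all of whose degrees are in `(k, 406 m ^ 3 k ^ 2 R]`. -/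
theorem result :
    (¬ ∃ C : ℝ, ∀ k : ℕ, 1 ≤ k → ∃ F : ℝ, Forces k C F) ∧
    (∀ (k : ℕ) (C : ℝ), 1 ≤ k → ((∃ F : ℝ, Forces k C F) ↔ (k = 1 ∧ 2 < C))) ∧
    (∀ k Δ n : ℕ, 2 ≤ k → k < Δ → ∃ G : SimpleGraph (Fin n),
      (k : ℝ) / 120 * n * Real.log (Real.log n / Real.log Δ) ≤ (G.edgeSet.ncard : ℝ) ∧
      ∀ H : G.Subgraph, ¬ DegreesIn k Δ H) ∧
    (∀ k : ℕ, 2 ≤ k → ∀ᶠ n : ℕ in atTop, ∃ G : SimpleGraph (Fin n),
      (k : ℝ) / 240 * n * Real.log (Real.log n) ≤ (G.edgeSet.ncard : ℝ) ∧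
      (∀ H : G.Subgraph, ¬ DegreesIn k (Real.exp (Real.sqrt (Real.log n))) H) ∧
      (∀ C : ℝ, C * k ≤ Real.exp (Real.sqrt (Real.log n)) →
        ∀ H : G.Subgraph, ¬ Quasiregular k C H)) ∧
    (∀ k : ℕ, 2 ≤ k → ∀ δ : ℝ, 0 < δ → δ < 1 → ∀ᶠ n : ℕ in atTop,
      (∃ G : SimpleGraph (Fin n), (k : ℝ) / 120 * Real.log (1 / δ) * n ≤ (G.edgeSet.ncard : ℝ) ∧
        ∀ H : G.Subgraph, ¬ DegreesIn k ((n : ℝ) ^ δ) H) ∧
      (∀ G : SimpleGraph (Fin n), 42 * k / δ * n ≤ (G.edgeSet.ncard : ℝ) →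
        ∃ H : G.Subgraph, DegreesIn k ((n : ℝ) ^ δ) H)) ∧
    (∀ k m R n : ℕ, 1 ≤ k → 1 ≤ m → 1 ≤ R → 1 ≤ n → n ≤ R ^ m → ∀ G : SimpleGraph (Fin n),
      2 * m * (6 * k + 1) * n ≤ G.edgeSet.ncard →
      ∃ H : G.Subgraph, DegreesIn k (406 * m ^ 3 * k ^ 2 * R : ℕ) H) := by
  have h2 : ∀ (k : ℕ) (C : ℝ), 1 ≤ k → ((∃ F : ℝ, Forces k C F) ↔ (k = 1 ∧ 2 < C)) := by
    intro k C hk
    constructor
    · rintro ⟨F, hF⟩
      by_contra hcon
      -- a graph without `(k, C)`-quasiregular subgraph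
      have hex : ∃ n : ℕ, 1 ≤ n ∧ ∃ G : SimpleGraph (Fin n), F * n ≤ (G.edgeSet.ncard : ℝ) ∧
          ∀ H : G.Subgraph, ¬ Quasiregular k C H := by
        rcases Nat.lt_or_ge k 2 with hk2 | hk2
        · have hk1 : k = 1 := by omega
          subst hk1
          have hC : C ≤ 2 := by
            by_contra h
            exact hcon ⟨rfl, not_le.mp h⟩
          obtain ⟨n, hn, G, hG, _⟩ := Pool.Agent.KS6_69.QR.exists_dense 2 3 le_rfl (by norm_num) F
          refine ⟨n, hn, G, hG, ?_⟩
          rintro H ⟨⟨v, hv⟩, hH⟩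
          obtain ⟨h1, h3⟩ := hH v hv
          have h4 : 1 < (H.neighborSet v).ncard := by exact_mod_cast h1
          have h5 : ((H.neighborSet v).ncard : ℝ) < 2 := by
            refine lt_of_lt_of_le h3 ?_
            push_cast
            linarith
          have h6 : (H.neighborSet v).ncard < 2 := by exact_mod_cast h5
          omega
        · obtain ⟨n, hn, G, hG, hgood⟩ := Pool.Agent.KS6_69.QR.exists_dense k
            (max (k + 1) ⌈C * k⌉₊) hk2 (by
              have := le_max_left (k + 1) ⌈C * k⌉₊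
              omega) F
          refine ⟨n, hn, G, hG, ?_⟩
          rintro H ⟨hne, hH⟩
          refine Pool.Agent.KS6_69.QR.good_not k _ hgood H hne (fun v hv => ⟨?_, ?_⟩)
          · exact_mod_cast (hH v hv).1
          · have h1 := (hH v hv).2
            have h3 : ((H.neighborSet v).ncard : ℝ) ≤ (⌈C * k⌉₊ : ℝ) := h1.le.trans (Nat.le_ceil _)
            have h4 : (H.neighborSet v).ncard ≤ ⌈C * k⌉₊ := by exact_mod_cast h3
            exact h4.trans (le_max_right _ _)
      obtain ⟨n, hn, G, hG, hno⟩ := hex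
      obtain ⟨H, hH⟩ := hF n hn G hG
      exact hno H hH
    · rintro ⟨rfl, hC⟩
      refine ⟨1, ?_⟩
      intro n hn G hG
      obtain ⟨H, hne, hH⟩ := Pool.Agent.KS6_69.QR.exists_two_regular n hn G (by
        rw [one_mul] at hG
        exact_mod_cast hG)
      refine ⟨H, hne, fun v hv => ?_⟩
      rw [hH v hv]
      constructor
      · norm_num
      · push_cast
        linarith
  refine ⟨?_, h2, ?_, ?_, ?_, ?_⟩
  · rintro ⟨C, hC⟩
    have := (h2 2 C (by norm_num)).mp (hC 2 (by norm_num))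
    omega
  · intro k Δ n hk hΔ
    obtain ⟨G, hG1, hG2⟩ := Pool.Agent.KS6_69.QR.lower k Δ n hk hΔ
    refine ⟨G, hG1, ?_⟩
    rintro H ⟨hne, hH⟩
    exact Pool.Agent.KS6_69.QR.good_not k Δ hG2 H hne
      (fun v hv => ⟨(hH v hv).1, by exact_mod_cast (hH v hv).2⟩)
  · intro k hk
    filter_upwards [Pool.Agent.KS6_69.QR.loglog k hk] with n hn
    obtain ⟨G, hG1, hG2⟩ := hn
    have h3 : ∀ H : G.Subgraph, ¬ DegreesIn k (Real.exp (Real.sqrt (Real.log n))) H := by
      rintro H ⟨hne, hH⟩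
      exact Pool.Agent.KS6_69.QR.good_not k _ hG2 H hne
        (fun v hv => ⟨(hH v hv).1, Nat.le_floor (hH v hv).2⟩)
    refine ⟨G, hG1, h3, ?_⟩
    rintro C hC H ⟨hne, hH⟩
    refine h3 H ⟨hne, fun v hv => ⟨?_, ?_⟩⟩
    · exact_mod_cast (hH v hv).1
    · exact (hH v hv).2.le.trans hC
  · intro k hk δ hδ hδ1
    filter_upwards [Pool.Agent.KS6_69.QR.power_lower k hk δ hδ,
      Pool.Agent.KS6_69.QR.power_upper k (by omega) δ hδ hδ1] with n h3 h4
    refine ⟨?_, ?_⟩
    · obtain ⟨G, hG1, hG2⟩ := h3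
      refine ⟨G, hG1, ?_⟩
      rintro H ⟨hne, hH⟩
      exact Pool.Agent.KS6_69.QR.good_not k _ hG2 H hne
        (fun v hv => ⟨(hH v hv).1, Nat.le_floor (hH v hv).2⟩)
    · intro G hG
      obtain ⟨H, hne, hH⟩ := h4 G hG
      exact ⟨H, hne, hH⟩
  · intro k m R n hk hm hR hn hnR G hG
    have : Nonempty (Fin n) := ⟨⟨0, hn⟩⟩
    obtain ⟨H, hne, hH⟩ := Pool.Agent.KS6_69.QR.upper G k m R hk hm hR
      (by rw [Fintype.card_fin]; exact hnR) (by rw [Fintype.card_fin]; exact hG)
    exact ⟨H, hne, fun v hv => ⟨(hH v hv).1, by exact_mod_cast (hH v hv).2⟩⟩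

end Pool.Agent.Results.MP_78fef3_co.DegreeWindow
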