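import Mathlib
import Pool.Agent.KS6_65.QR.Uniform

set_option autoImplicit false

/-!
# Quasiregular subgraphs: classification and the order of magnitude

* The pairs `(k, C)` for which a linear number of edges forces a `(k, C)`-quasiregular subgraph are
  exactly the pairs with `k = 1` and `C > 2`; in particular Sauer's assertion is false.
* For all `n`, `k ≥ 2` and `Δ ≥ 1` there is a graph with `n` vertices and at least
  `(k n / 150) log (log n / (k + log Δ))` edges in which every subgraph whose degrees are all larger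
  than `k` has a vertex of degree larger than `Δ`.
* So for fixed `γ < 1`, uniformly in `2 ≤ k ≤ (log n) ^ γ`, the number of edges
  `((1 - γ) / 250) k n log log n` does not force a subgraph with all its degrees between `k` and
  `exp ((log n) ^ γ)`.
-/

namespace Pool.Agent.Results.MP_78fef3_co.SharpOrder

/-- A subgraph `H` of `G` is `(k, C)`-quasiregular: it has at least one vertex and every vertex `v`
of `H` satisfies `k < d_H(v) < C k`, the degrees being counted inside `H`. -/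
def IsQuasiregular {V : Type*} {G : SimpleGraph V} (k : ℕ) (C : ℝ) (H : G.Subgraph) : Prop :=
  H.verts.Nonempty ∧ ∀ v ∈ H.verts,
    (k : ℝ) < ((H.neighborSet v).ncard : ℝ) ∧ ((H.neighborSet v).ncard : ℝ) < C * k

/-- Every graph with `n ≥ 1` vertices and at least `F n` edges contains a `(k, C)`-quasiregular
subgraph. -/
def Forces (k : ℕ) (C F : ℝ) : Prop :=
  ∀ n : ℕ, 1 ≤ n → ∀ G : SimpleGraph (Fin n), F * n ≤ (G.edgeSet.ncard : ℝ) →
    ∃ H : G.Subgraph, IsQuasiregular k C H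

/-- The assertion of Sauer's question. -/
def Sauer : Prop := ∃ C : ℝ, ∀ k : ℕ, 1 ≤ k → ∃ F : ℝ, Forces k C F

/-- a graph with at least as many edges as vertices contains a cycle -/
lemma forces_one (C : ℝ) (hC : 2 < C) : Forces 1 C 1 := by
  classical
  intro n hn G hG
  have hnac : ¬ G.IsAcyclic := by
    intro hac
    haveI : Nonempty (Fin n) := ⟨⟨0, by omega⟩⟩
    obtain ⟨F, hF1, _, hF⟩ := (SimpleGraph.connected_top (V := Fin n)).exists_isTree_le_of_le_of_isAcyclic
      (le_top : G ≤ ⊤) hac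
    have h1 := hF.card_edgeFinset
    rw [Fintype.card_fin] at h1
    have h2 : G.edgeSet.ncard ≤ F.edgeSet.ncard :=
      Set.ncard_le_ncard (SimpleGraph.edgeSet_mono hF1) (Set.toFinite _)
    have h3 : F.edgeSet.ncard = F.edgeFinset.card := by
      rw [← SimpleGraph.coe_edgeFinset, Set.ncard_coe_finset]
    have h4 : (n:ℝ) ≤ (G.edgeSet.ncard : ℝ) := by linarith
    have h5 : n ≤ G.edgeSet.ncard := by exact_mod_cast h4
    omega
  unfold SimpleGraph.IsAcyclic at hnac
  push Not at hnac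
  obtain ⟨v, p, hp⟩ := hnac
  refine ⟨p.toSubgraph, ⟨v, p.start_mem_verts_toSubgraph⟩, ?_⟩
  intro w hw
  rw [SimpleGraph.Walk.mem_verts_toSubgraph] at hw
  rw [hp.ncard_neighborSet_toSubgraph_eq_two hw]
  push_cast
  constructor <;> linarith

/-- `log (log n / c)` tends to infinity -/
lemma tendsto_loglog (c : ℝ) (hc : 0 < c) :
    Filter.Tendsto (fun n : ℕ => Real.log (Real.log n / c)) Filter.atTop Filter.atTop :=
  Real.tendsto_log_atTop.comp
    ((Real.tendsto_log_atTop.comp tendsto_natCast_atTop_atTop).atTop_div_const hc)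

/-- no linear number of edges suffices if `k ≥ 2` -/
lemma not_forces (k : ℕ) (hk : 2 ≤ k) (C F : ℝ) : ¬ Forces k C F := by
  intro hF
  have hk' : (2:ℝ) ≤ k := by exact_mod_cast hk
  obtain ⟨Δ, hΔ⟩ : ∃ Δ, Δ = max 1 ⌈C * k⌉₊ := ⟨_, rfl⟩
  have hΔ1 : 1 ≤ Δ := by rw [hΔ]; exact le_max_left _ _
  have hΔC : C * k ≤ Δ := by
    refine (Nat.le_ceil _).trans ?_
    rw [hΔ]; exact_mod_cast le_max_right _ _
  have hlΔ : 0 ≤ Real.log Δ := Real.log_nonneg (by exact_mod_cast hΔ1)
  have htend := tendsto_loglog ((k:ℝ) + Real.log Δ) (by linarith)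
  obtain ⟨n, hn⟩ := ((htend.eventually_ge_atTop (150 * |F|)).and (Filter.eventually_ge_atTop 1)).exists
  obtain ⟨hn1, hn2⟩ := hn
  obtain ⟨G, hG, hW⟩ := Pool.Agent.KS6_65.QR.uniform n k Δ hk hΔ1
  have hn' : (1:ℝ) ≤ n := by exact_mod_cast hn2
  obtain ⟨H, hne, hH⟩ := hF n hn2 G (by
    refine le_trans ?_ hG
    have h1 : F ≤ |F| := le_abs_self F
    have h2 : 0 ≤ |F| := abs_nonneg F
    calc F * n ≤ |F| * n := by gcongr
      _ = (1/150 : ℝ) * 1 * n * (150 * |F|) := by ring
      _ ≤ (1/150 : ℝ) * k * n * Real.log (Real.log n / (k + Real.log Δ)) := by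
          gcongr
          linarith)
  obtain ⟨v, hv, hv2⟩ := hW H hne (by
    intro v hv
    exact_mod_cast (hH v hv).1)
  have h1 := (hH v hv).2
  have h2 : (Δ:ℝ) < ((H.neighborSet v).ncard : ℝ) := by exact_mod_cast hv2
  linarith

/-- for `k = 1` and `C ≤ 2` there is no admissible degree at all -/
lemma not_forces_one (C : ℝ) (hC : C ≤ 2) (F : ℝ) : ¬ Forces 1 C F := by
  classical
  intro hF
  obtain ⟨m, hm⟩ : ∃ m : ℕ, 2 * |F| + 1 ≤ m := exists_nat_ge _
  have hm1 : 1 ≤ m := by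
    have h1 : (1:ℝ) ≤ m := by
      have := abs_nonneg F
      linarith
    exact_mod_cast h1
  obtain ⟨H, ⟨v, hv⟩, hH⟩ := hF m hm1 ⊤ (by
    have h1 : ((⊤ : SimpleGraph (Fin m)).edgeSet.ncard) = m.choose 2 := by
      rw [← SimpleGraph.coe_edgeFinset, Set.ncard_coe_finset, SimpleGraph.card_edgeFinset_top_eq_card_choose_two,
        Fintype.card_fin]
    rw [h1, Nat.cast_choose_two]
    have h2 : F ≤ |F| := le_abs_self F
    have h3 : (0:ℝ) < m := by exact_mod_cast hm1
    nlinarith)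
  obtain ⟨h1, h2⟩ := hH v hv
  push_cast at h1 h2
  have h3 : 1 < (H.neighborSet v).ncard := by exact_mod_cast h1
  have h4 : (2:ℝ) ≤ ((H.neighborSet v).ncard : ℝ) := by exact_mod_cast h3
  linarith

/-- the uniform bound in the range `k ≤ (log n) ^ γ`, `Δ ≤ exp ((log n) ^ γ)` -/
lemma power_range (γ : ℝ) (hγ : γ < 1) : ∃ n₀ : ℕ, ∀ n : ℕ, n₀ ≤ n → ∀ k Δ : ℕ, 2 ≤ k →
    (k : ℝ) ≤ (Real.log n) ^ γ → (Δ : ℝ) ≤ Real.exp ((Real.log n) ^ γ) →
    ∃ G : SimpleGraph (Fin n), ((1 - γ) / 250) * k * n * Real.log (Real.log n) ≤ (G.edgeSet.ncard : ℝ) ∧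
      Pool.Agent.KS6_65.QR.Wild G k Δ := by
  have hL : Filter.Tendsto (fun n : ℕ => Real.log n) Filter.atTop Filter.atTop :=
    Real.tendsto_log_atTop.comp tendsto_natCast_atTop_atTop
  have hLL : Filter.Tendsto (fun n : ℕ => Real.log (Real.log n)) Filter.atTop Filter.atTop :=
    Real.tendsto_log_atTop.comp hL
  have hev := (hL.eventually_ge_atTop 1).and
    (hLL.eventually_ge_atTop (2.5 * Real.log 2 / (1 - γ)))
  obtain ⟨n₀, hn₀⟩ := Filter.eventually_atTop.mp hev
  refine ⟨n₀, ?_⟩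
  intro n hn k Δ hk hkL hΔL
  obtain ⟨hL1, hLL1⟩ := hn₀ n hn
  have hk' : (2:ℝ) ≤ k := by exact_mod_cast hk
  have h1γ : 0 < 1 - γ := by linarith
  set L := Real.log n with hLdef
  have hlogL : 0 ≤ Real.log L := Real.log_nonneg hL1
  rw [div_le_iff₀ h1γ] at hLL1
  -- enlarge `Δ` to at least one
  obtain ⟨Δ', hΔ'⟩ : ∃ Δ', Δ' = max 1 Δ := ⟨_, rfl⟩
  have hΔ'1 : 1 ≤ Δ' := by rw [hΔ']; exact le_max_left _ _
  have hΔ'2 : Δ ≤ Δ' := by rw [hΔ']; exact le_max_right _ _
  have hLγ : 0 < L ^ γ := Real.rpow_pos_of_pos (by linarith) _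
  have hlogΔ : Real.log Δ' ≤ L ^ γ := by
    rcases Nat.eq_zero_or_pos Δ with h0 | h0
    · rw [hΔ', h0]; simp; exact hLγ.le
    · have : Δ' = Δ := by rw [hΔ']; exact max_eq_right h0
      rw [this, Real.log_le_iff_le_exp (by exact_mod_cast h0)]
      exact hΔL
  obtain ⟨G, hG, hW⟩ := Pool.Agent.KS6_65.QR.uniform n k Δ' hk hΔ'1
  refine ⟨G, le_trans ?_ hG, ?_⟩
  · have hlogΔ0 : 0 ≤ Real.log Δ' := Real.log_nonneg (by exact_mod_cast hΔ'1)
    have h1 : L / (2 * L ^ γ) ≤ L / (k + Real.log Δ') := by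
      apply div_le_div_of_nonneg_left (by linarith) (by linarith)
      linarith
    have h2 : Real.log (L / (2 * L ^ γ)) = (1 - γ) * Real.log L - Real.log 2 := by
      rw [Real.log_div (by linarith) (by positivity), Real.log_mul (by norm_num) hLγ.ne',
        Real.log_rpow (by linarith)]
      ring
    have h3 : (1 - γ) * Real.log L - Real.log 2 ≤ Real.log (L / (k + Real.log Δ')) := by
      rw [← h2]
      exact Real.log_le_log (by positivity) h1
    have h4 : (3/5) * ((1 - γ) * Real.log L) ≤ Real.log (L / (k + Real.log Δ')) := by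
      refine le_trans ?_ h3
      linarith
    calc ((1 - γ) / 250) * k * n * Real.log L
        = (1/150 : ℝ) * k * n * ((3/5) * ((1 - γ) * Real.log L)) := by ring
      _ ≤ (1/150 : ℝ) * k * n * Real.log (L / (k + Real.log Δ')) := by gcongr
  · intro H hne hH
    obtain ⟨v, hv, hv2⟩ := hW H hne hH
    exact ⟨v, hv, lt_of_le_of_lt hΔ'2 hv2⟩

/-- **Quasiregular subgraphs.**
(1) Sauer's assertion is false.
(2) For an integer `k ≥ 1` and a real `C`, some linear number of edges forces a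
`(k, C)`-quasiregular subgraph if and only if `k = 1` and `C > 2`.
(3) For all `n`, `k ≥ 2`, `Δ ≥ 1` there is a graph on `n` vertices with at least
`(k n / 150) log (log n / (k + log Δ))` edges in which every nonempty subgraph with all degrees
larger than `k` has a vertex of degree larger than `Δ`.
(4) For every real `γ < 1` there is `n₀` such that for all `n ≥ n₀`, all integers
`2 ≤ k ≤ (log n) ^ γ` and all `Δ ≤ exp ((log n) ^ γ)` there is a graph on `n` vertices with at
least `((1 - γ) / 250) k n log log n` edges with the same property. -/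
theorem result :
    ¬ Sauer ∧
    (∀ (k : ℕ) (C : ℝ), 1 ≤ k → ((∃ F : ℝ, Forces k C F) ↔ (k = 1 ∧ 2 < C))) ∧
    (∀ n k Δ : ℕ, 2 ≤ k → 1 ≤ Δ → ∃ G : SimpleGraph (Fin n),
      (1/150 : ℝ) * k * n * Real.log (Real.log n / (k + Real.log Δ)) ≤ (G.edgeSet.ncard : ℝ) ∧
      ∀ H : G.Subgraph, H.verts.Nonempty → (∀ v ∈ H.verts, k < (H.neighborSet v).ncard) →
        ∃ v ∈ H.verts, Δ < (H.neighborSet v).ncard) ∧
    (∀ γ : ℝ, γ < 1 → ∃ n₀ : ℕ, ∀ n : ℕ, n₀ ≤ n → ∀ k Δ : ℕ, 2 ≤ k →
      (k : ℝ) ≤ (Real.log n) ^ γ → (Δ : ℝ) ≤ Real.exp ((Real.log n) ^ γ) →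
      ∃ G : SimpleGraph (Fin n),
        ((1 - γ) / 250) * k * n * Real.log (Real.log n) ≤ (G.edgeSet.ncard : ℝ) ∧
        ∀ H : G.Subgraph, H.verts.Nonempty → (∀ v ∈ H.verts, k < (H.neighborSet v).ncard) →
          ∃ v ∈ H.verts, Δ < (H.neighborSet v).ncard) := by
  refine ⟨?_, ?_, ?_, ?_⟩
  · rintro ⟨C, hC⟩
    obtain ⟨F, hF⟩ := hC 2 (by norm_num)
    exact not_forces 2 le_rfl C F hF
  · intro k C hk
    constructor
    · rintro ⟨F, hF⟩
      rcases Nat.lt_or_ge k 2 with h | h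
      · have hk1 : k = 1 := by omega
        refine ⟨hk1, ?_⟩
        by_contra hC
        rw [hk1] at hF
        exact not_forces_one C (not_lt.mp hC) F hF
      · exact absurd hF (not_forces k h C F)
    · rintro ⟨rfl, hC⟩
      exact ⟨1, forces_one C hC⟩
  · intro n k Δ hk hΔ
    exact Pool.Agent.KS6_65.QR.uniform n k Δ hk hΔ
  · intro γ hγ
    exact power_range γ hγ

end Pool.Agent.Results.MP_78fef3_co.SharpOrder
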